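import Pool.Agent.Helper47.T3.Goals

/-!
# Project FLG, case `n = 3`, packet T3D: distances and the diameter
-/

set_option autoImplicit false

namespace Pool.Agent.Helper16.T3

open Finset MeasureTheory Pool.Agent.Helper73 Pool.Agent.Helper47 Pool.Agent.Helper47.T3

/-- the identification of `ℝ⁴` with the quaternions as a linear isometry -/
noncomputable def iso (h : A_T3A) : SN.EE 3 ≃ₗᵢ[ℝ] TS.HH where
  toFun := TS.toQ
  map_add' := fun x y => (h.2.2.1 x y).1
  map_smul' := fun r x => h.2.2.2.1 r x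
  invFun := ofQ
  left_inv := fun x => (h.1 x).1
  right_inv := fun q => (h.2.1 q).1
  norm_map' := fun x => (h.1 x).2

theorem iso_apply (h : A_T3A) (x : SN.EE 3) : iso h x = TS.toQ x := rfl

theorem iso_symm_apply (h : A_T3A) (q : TS.HH) : (iso h).symm q = ofQ q := rfl

/-- the derivative of a curve in the sphere is tangent (also where the curve is not differentiable) -/
theorem tan_deriv (c : ℝ → SN.EE 3) (hc : ∀ t, ‖c t‖ = 1) (t : ℝ) : SN.Tan (c t) (fun i => deriv c t i) := by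
  unfold SN.Tan
  by_cases hd : DifferentiableAt ℝ c t
  · have h1 := hd.hasDerivAt.inner ℝ hd.hasDerivAt
    have h2 : (fun t => inner ℝ (c t) (c t)) = fun _ => (1 : ℝ) := by
      funext s
      rw [real_inner_self_eq_norm_sq, hc s, one_pow]
    rw [h2] at h1
    have h3 := h1.unique (hasDerivAt_const t (1 : ℝ))
    have h5 := real_inner_comm (c t) (deriv c t)
    have h4 : inner ℝ (c t) (deriv c t) = 0 := by linarith
    rw [PiLp.inner_apply] at h4
    rw [← h4]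
    refine Finset.sum_congr rfl fun i _ => ?_
    simp
  · rw [deriv_zero_of_not_differentiableAt hd]
    simp

theorem sum4 (f : Fin 3 → Fin 3 → Fin 4 → Fin 4 → ℝ) :
    ∑ i, ∑ j, ∑ a, ∑ b, f i j a b = ∑ a, ∑ b, ∑ i, ∑ j, f i j a b := by
  calc ∑ i, ∑ j, ∑ a, ∑ b, f i j a b = ∑ i, ∑ a, ∑ j, ∑ b, f i j a b :=
        Finset.sum_congr rfl fun i _ => Finset.sum_comm
    _ = ∑ a, ∑ i, ∑ j, ∑ b, f i j a b := Finset.sum_comm
    _ = ∑ a, ∑ i, ∑ b, ∑ j, f i j a b :=
        Finset.sum_congr rfl fun a _ => Finset.sum_congr rfl fun i _ => Finset.sum_comm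
    _ = ∑ a, ∑ b, ∑ i, ∑ j, f i j a b := Finset.sum_congr rfl fun a _ => Finset.sum_comm

theorem speed_eq (h : A_T3A) (G : SN.MF 3) (c : ℝ → SN.EE 3) (hc : ∀ t, ‖c t‖ = 1) (t : ℝ) :
    TS.speed (g3 G) (fun s => TS.toQ (c s)) t = SN.speed G c t := by
  have hder : deriv (fun s => TS.toQ (c s)) t = TS.toQ (deriv c t) := by
    have h1 := (iso h).toContinuousLinearEquiv.comp_fderiv (f := c) (x := t)
    have h2 : deriv (fun s => TS.toQ (c s)) t = fderiv ℝ ((iso h).toContinuousLinearEquiv ∘ c) t 1 := by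
      rw [fderiv_apply_one_eq_deriv]
      rfl
    rw [h2, h1]
    change TS.toQ (fderiv ℝ c t 1) = TS.toQ (deriv c t)
    rw [fderiv_apply_one_eq_deriv]
  unfold TS.speed SN.speed
  congr 1
  rw [hder]
  set x := c t with hx
  have hx1 : ‖x‖ = 1 := hc t
  have hT := h.2.2.2.2.2.2.2.1 x hx1 (fun i => deriv c t i) (tan_deriv c hc t)
  have hw : WithLp.toLp 2 (fun i => deriv c t i) = deriv c t := rfl
  rw [hw] at hT
  set v := TS.fr (TS.toQ x) (TS.toQ (deriv c t)) with hv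
  rw [hT]
  have hg : ∀ i j, g3 G (TS.toQ x) i j = ∑ a, ∑ b, G x a b * qv i x a * qv j x b := by
    intro i j
    unfold g3
    rw [Matrix.of_apply, (h.1 x).1, (h.1 x).2, hx1, one_pow, div_one]
    rfl
  unfold TS.ip SN.ip
  have hL : ∀ i j, g3 G (TS.toQ x) i j * v i * v j =
      ∑ a, ∑ b, G x a b * (v i * qv i x a) * (v j * qv j x b) := by
    intro i j
    rw [hg, Finset.sum_mul, Finset.sum_mul]
    refine Finset.sum_congr rfl fun a _ => ?_
    rw [Finset.sum_mul, Finset.sum_mul]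
    refine Finset.sum_congr rfl fun b _ => ?_
    ring
  have hR : ∀ a b, G x a b * (∑ i, v i * qv i x a) * (∑ j, v j * qv j x b) =
      ∑ i, ∑ j, G x a b * (v i * qv i x a) * (v j * qv j x b) := by
    intro a b
    rw [mul_assoc, Finset.sum_mul_sum, Finset.mul_sum]
    refine Finset.sum_congr rfl fun i _ => ?_
    rw [Finset.mul_sum]
    refine Finset.sum_congr rfl fun j _ => ?_
    ring
  have hL' : (∑ i, ∑ j, g3 G (TS.toQ x) i j * v i * v j) =
      ∑ i, ∑ j, ∑ a, ∑ b, G x a b * (v i * qv i x a) * (v j * qv j x b) :=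
    Finset.sum_congr rfl fun i _ => Finset.sum_congr rfl fun j _ => hL i j
  have hR' : (∑ a, ∑ b, G x a b * (∑ i, v i * qv i x a) * (∑ j, v j * qv j x b)) =
      ∑ a, ∑ b, ∑ i, ∑ j, G x a b * (v i * qv i x a) * (v j * qv j x b) :=
    Finset.sum_congr rfl fun a _ => Finset.sum_congr rfl fun b _ => hR a b
  exact hL'.trans ((sum4 (fun i j a b => G x a b * (v i * qv i x a) * (v j * qv j x b))).trans hR'.symm)

theorem joins_to (h : A_T3A) {c : ℝ → SN.EE 3} {x y : SN.EE 3} (hc : SN.Joins c x y) :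
    TS.Joins (fun s => TS.toQ (c s)) (TS.toQ x) (TS.toQ y) := by
  obtain ⟨⟨K, hK⟩, h1, h2, h3⟩ := hc
  refine ⟨⟨1 * K, (iso h).lipschitz.comp hK⟩, fun t => ?_, ?_, ?_⟩
  · rw [(h.1 _).2, h1]
  · simp only [h2]
  · simp only [h3]

theorem joins_of (h : A_T3A) {c : ℝ → TS.HH} {x y : SN.EE 3} (hc : TS.Joins c (TS.toQ x) (TS.toQ y)) :
    SN.Joins (fun s => ofQ (c s)) x y := by
  obtain ⟨⟨K, hK⟩, h1, h2, h3⟩ := hc
  refine ⟨⟨1 * K, (iso h).symm.lipschitz.comp hK⟩, fun t => ?_, ?_, ?_⟩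
  · rw [(h.2.1 _).2, h1]
  · simp only [h2, (h.1 _).1]
  · simp only [h3, (h.1 _).1]

theorem gdist_eq (h : A_T3A) (G : SN.MF 3) (x y : SN.EE 3) :
    TS.gdist (g3 G) (TS.toQ x) (TS.toQ y) = SN.gdist G x y := by
  unfold TS.gdist SN.gdist
  congr 1
  ext r
  constructor
  · rintro ⟨c, hc, hr⟩
    refine ⟨fun s => ofQ (c s), joins_of h hc, ?_⟩
    have h1 : (fun s => TS.toQ (ofQ (c s))) = c := by
      funext s
      exact (h.2.1 _).1
    rw [hr]
    unfold TS.glen SN.glen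
    refine intervalIntegral.integral_congr fun t _ => ?_
    have h2 := speed_eq h G (fun s => ofQ (c s)) (fun t => by rw [(h.2.1 _).2, hc.2.1 t]) t
    rw [h1] at h2
    exact h2
  · rintro ⟨c, hc, hr⟩
    refine ⟨fun s => TS.toQ (c s), joins_to h hc, ?_⟩
    rw [hr]
    unfold TS.glen SN.glen
    refine intervalIntegral.integral_congr fun t _ => ?_
    exact (speed_eq h G c hc.2.1 t).symm

/-- packet T3D -/
theorem t_T3D (hT3A : A_T3A) : A_T3D := by
  intro M
  refine ⟨fun x y => gdist_eq hT3A M.G x y, ?_⟩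
  unfold TS.gdiam SN.gdiam
  congr 1
  ext r
  constructor
  · rintro ⟨x, y, hx, hy, hr⟩
    refine ⟨ofQ x, ofQ y, by rw [(hT3A.2.1 _).2, hx], by rw [(hT3A.2.1 _).2, hy], ?_⟩
    rw [hr, ← gdist_eq hT3A, (hT3A.2.1 _).1, (hT3A.2.1 _).1]
  · rintro ⟨x, y, hx, hy, hr⟩
    refine ⟨TS.toQ x, TS.toQ y, by rw [(hT3A.1 _).2, hx], by rw [(hT3A.1 _).2, hy], ?_⟩
    rw [hr, ← gdist_eq hT3A]

end Pool.Agent.Helper16.T3
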